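import Mathlib.Algebra.MvPolynomial.Degrees
import Mathlib.Analysis.Calculus.FDeriv.Defs
import Mathlib.Analysis.CStarAlgebra.Classes

set_option autoImplicit false

namespace Pool.Agent.MP_eddcad_an

/-- The open Euclidean unit ball of `ℂ^m`. -/
def unitBall (m : ℕ) : Set (Fin m → ℂ) := {z | ∑ i, ‖z i‖ ^ 2 < 1}

/-- `f` restricts to a proper holomorphic map from the unit ball of `ℂ^n` to that of `ℂ^N`. -/
def IsProperHol {n N : ℕ} (f : (Fin n → ℂ) → (Fin N → ℂ)) : Prop :=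
  DifferentiableOn ℂ f (unitBall n) ∧ Set.MapsTo f (unitBall n) (unitBall N) ∧
    ∀ K : Set (Fin N → ℂ), IsCompact K → K ⊆ unitBall N → IsCompact (unitBall n ∩ f ⁻¹' K)

/-- On the ball, `f = P / Q` with polynomials of degree at most `e` and `Q` zero-free there. -/
def RatDegLE {n N : ℕ} (f : (Fin n → ℂ) → (Fin N → ℂ)) (e : ℕ) : Prop :=
  ∃ P : Fin N → MvPolynomial (Fin n) ℂ, ∃ Q : MvPolynomial (Fin n) ℂ,
    (∀ j, (P j).totalDegree ≤ e) ∧ Q.totalDegree ≤ e ∧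
    ∀ z ∈ unitBall n, MvPolynomial.eval z Q ≠ 0 ∧
      ∀ j, f z j = MvPolynomial.eval z (P j) / MvPolynomial.eval z Q

/-- `f` and `g` are homotopic through proper holomorphic maps of the balls. -/
def ProperHomotopic {n N : ℕ} (f g : (Fin n → ℂ) → (Fin N → ℂ)) : Prop :=
  ∃ H : ℝ → (Fin n → ℂ) → (Fin N → ℂ),
    ContinuousOn (fun x : ℝ × (Fin n → ℂ) => H x.1 x.2) (Set.Icc (0 : ℝ) 1 ×ˢ unitBall n) ∧
    (∀ t ∈ Set.Icc (0 : ℝ) 1, IsProperHol (H t)) ∧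
    ∀ z ∈ unitBall n, H 0 z = f z ∧ H 1 z = g z

end Pool.Agent.MP_eddcad_an
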