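import Mathlib.Topology.Sheaves.Presheaf
import Mathlib.Tactic.Monotonicity.Lemmas
import Mathlib.RingTheory.PicardGroup
import Mathlib.Algebra.Ring.IsFormallyReal
import Mathlib.Analysis.Analytic.Polynomial
import Mathlib.Analysis.CStarAlgebra.Module.Constructions
import Mathlib.Analysis.Complex.Schwarz
import Mathlib.Combinatorics.SimpleGraph.Basic
import Mathlib.RingTheory.PiTensorProduct
import Pool.Agent.MP_eddcad_an.Defs

-- ======== part 0: formerly Pool.Agent.MP_eddcad_an.Frame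
section MrgPart0

set_option autoImplicit false

namespace Pool.Agent.MP_eddcad_an

open Set Filter Topology

variable {E F G : Type*} [NormedAddCommGroup E] [NormedSpace ℂ E]
  [NormedAddCommGroup F] [NormedSpace ℂ F] [NormedAddCommGroup G] [NormedSpace ℂ G]

/-- proper holomorphic map from `U` to `V` -/
structure Prp (U : Set E) (V : Set F) (g : E → F) : Prop where
  diff : DifferentiableOn ℂ g U
  maps : MapsTo g U V
  cpt : ∀ K : Set F, IsCompact K → K ⊆ V → IsCompact (U ∩ g ⁻¹' K)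

/-- homotopy through proper holomorphic maps -/
def Htp (U : Set E) (V : Set F) (f g : E → F) : Prop :=
  ∃ H : ℝ → E → F, ContinuousOn (fun x : ℝ × E => H x.1 x.2) (Icc (0 : ℝ) 1 ×ˢ U) ∧
    (∀ t ∈ Icc (0 : ℝ) 1, Prp U V (H t)) ∧ ∀ z ∈ U, H 0 z = f z ∧ H 1 z = g z

theorem Prp.congr {U : Set E} {V : Set F} {f g : E → F} (h : Prp U V f) (he : EqOn f g U) :
    Prp U V g := by
  refine ⟨h.diff.congr (fun x hx => (he hx).symm), fun x hx => he hx ▸ h.maps hx, ?_⟩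
  intro K hK hKV
  have : U ∩ g ⁻¹' K = U ∩ f ⁻¹' K := by
    ext x
    constructor
    · rintro ⟨hx, hx2⟩
      exact ⟨hx, by rw [mem_preimage, he hx]; exact hx2⟩
    · rintro ⟨hx, hx2⟩
      exact ⟨hx, by rw [mem_preimage, ← he hx]; exact hx2⟩
  rw [this]
  exact h.cpt K hK hKV

theorem Prp.comp {U : Set E} {V : Set F} {W : Set G} {f : E → F} {g : F → G}
    (hg : Prp V W g) (hf : Prp U V f) : Prp U W (g ∘ f) := by
  refine ⟨hg.diff.comp hf.diff hf.maps, hg.maps.comp hf.maps, ?_⟩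
  intro K hK hKW
  have h1 := hf.cpt _ (hg.cpt K hK hKW) inter_subset_left
  have : U ∩ (g ∘ f) ⁻¹' K = U ∩ f ⁻¹' (V ∩ g ⁻¹' K) := by
    ext x
    constructor
    · rintro ⟨hx, hx2⟩
      exact ⟨hx, hf.maps hx, hx2⟩
    · rintro ⟨hx, _, hx2⟩
      exact ⟨hx, hx2⟩
  rw [this]
  exact h1

theorem Prp.of_inv {U : Set E} {V : Set F} {c : E → F} {c' : F → E}
    (hd : DifferentiableOn ℂ c U) (hm : MapsTo c U V) (hc : ContinuousOn c' V)
    (hm' : MapsTo c' V U) (hl : ∀ x ∈ U, c' (c x) = x) (hr : ∀ y ∈ V, c (c' y) = y) :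
    Prp U V c := by
  refine ⟨hd, hm, ?_⟩
  intro K hK hKV
  have : U ∩ c ⁻¹' K = c' '' K := by
    ext x
    constructor
    · rintro ⟨hx, hx2⟩
      exact ⟨c x, hx2, hl x hx⟩
    · rintro ⟨y, hy, rfl⟩
      exact ⟨hm' (hKV hy), by rw [mem_preimage, hr y (hKV hy)]; exact hy⟩
  rw [this]
  exact hK.image_of_continuousOn (hc.mono hKV)

theorem Prp.of_isometry [CompleteSpace E] {U : Set E} {V : Set F} (A : E →ₗᵢ[ℂ] F)
    (h : ∀ x, x ∈ U ↔ A x ∈ V) : Prp U V A := by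
  refine ⟨A.toContinuousLinearMap.differentiable.differentiableOn, fun x hx => (h x).1 hx, ?_⟩
  intro K hK hKV
  have : U ∩ A ⁻¹' K = A ⁻¹' K := by
    ext x
    constructor
    · exact fun hx => hx.2
    · exact fun hx => ⟨(h x).2 (hKV hx), hx⟩
  rw [this]
  exact A.isometry.isClosedEmbedding.isCompact_preimage hK

/-- boundary points go to boundary points -/
theorem Prp.boundary {U : Set E} {V : Set F} {g : E → F} (h : Prp U V g)
    [LocallyCompactSpace F] (hV : IsOpen V) {x : E} (hx : x ∈ closure U) (hxU : x ∉ U)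
    (hc : ContinuousAt g x) : g x ∈ closure V ∧ g x ∉ V := by
  constructor
  · exact hc.continuousWithinAt.mem_closure hx h.maps
  · intro hgx
    obtain ⟨K, hK, hKV, hKc⟩ := local_compact_nhds (hV.mem_nhds hgx)
    have h1 : IsClosed (U ∩ g ⁻¹' K) := (h.cpt K hKc hKV).isClosed
    have h2 : x ∈ closure (U ∩ g ⁻¹' K) := by
      rw [mem_closure_iff_nhds] at hx ⊢
      intro t ht
      obtain ⟨y, hy1, hy2⟩ := hx (t ∩ g ⁻¹' K) (inter_mem ht (hc.preimage_mem_nhds hK))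
      exact ⟨y, hy1.1, hy2, hy1.2⟩
    rw [h1.closure_eq] at h2
    exact hxU h2.1

theorem Htp.left {U : Set E} {V : Set F} {f g : E → F} (h : Htp U V f g) : Prp U V f := by
  obtain ⟨H, _, h2, h3⟩ := h
  exact (h2 0 ⟨le_rfl, zero_le_one⟩).congr fun z hz => (h3 z hz).1

theorem Htp.right {U : Set E} {V : Set F} {f g : E → F} (h : Htp U V f g) : Prp U V g := by
  obtain ⟨H, _, h2, h3⟩ := h
  exact (h2 1 ⟨zero_le_one, le_rfl⟩).congr fun z hz => (h3 z hz).2

theorem Htp.refl {U : Set E} {V : Set F} {f : E → F} (h : Prp U V f) : Htp U V f f :=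
  ⟨fun _ => f, h.diff.continuousOn.comp continuousOn_snd (fun _ hx => hx.2),
    fun _ _ => h, fun _ _ => ⟨rfl, rfl⟩⟩

theorem Htp.congr {U : Set E} {V : Set F} {f g f' g' : E → F} (h : Htp U V f g)
    (hf : EqOn f f' U) (hg : EqOn g g' U) : Htp U V f' g' := by
  obtain ⟨H, h1, h2, h3⟩ := h
  exact ⟨H, h1, h2, fun z hz => ⟨(h3 z hz).1.trans (hf hz), (h3 z hz).2.trans (hg hz)⟩⟩

theorem Htp.symm {U : Set E} {V : Set F} {f g : E → F} (h : Htp U V f g) : Htp U V g f := by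
  obtain ⟨H, h1, h2, h3⟩ := h
  refine ⟨fun t => H (1 - t), ?_, ?_, ?_⟩
  · refine h1.comp (f := fun x : ℝ × E => (1 - x.1, x.2)) (by fun_prop) ?_
    rintro ⟨t, z⟩ ⟨⟨a, b⟩, hz⟩
    exact ⟨⟨by simpa using b, by simpa using a⟩, hz⟩
  · rintro t ⟨a, b⟩
    exact h2 _ ⟨by linarith, by linarith⟩
  · intro z hz
    simp only [sub_zero, sub_self]
    exact ⟨(h3 z hz).2, (h3 z hz).1⟩

theorem Htp.trans {U : Set E} {V : Set F} {f g k : E → F} (h : Htp U V f g) (h' : Htp U V g k) :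
    Htp U V f k := by
  have hg := h.right
  obtain ⟨H, h1, h2, h3⟩ := h
  obtain ⟨H', h1', h2', h3'⟩ := h'
  refine ⟨fun t z => H (min (2 * t) 1) z + H' (max (2 * t - 1) 0) z - g z, ?_, ?_, ?_⟩
  · refine ContinuousOn.sub (ContinuousOn.add ?_ ?_) ?_
    · refine h1.comp (f := fun x : ℝ × E => (min (2 * x.1) 1, x.2)) (by fun_prop) ?_
      rintro ⟨t, z⟩ ⟨⟨a, b⟩, hz⟩
      exact ⟨⟨le_min (by simp only at a ⊢; linarith) zero_le_one, min_le_right _ _⟩, hz⟩
    · refine h1'.comp (f := fun x : ℝ × E => (max (2 * x.1 - 1) 0, x.2)) (by fun_prop) ?_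
      rintro ⟨t, z⟩ ⟨⟨a, b⟩, hz⟩
      exact ⟨⟨le_max_right _ _, max_le (by simp only at b ⊢; linarith) zero_le_one⟩, hz⟩
    · exact hg.diff.continuousOn.comp continuousOn_snd (fun _ hx => hx.2)
  · rintro t ⟨a, b⟩
    rcases le_total (2 * t) 1 with ht | ht
    · refine (h2 (2 * t) ⟨by linarith, ht⟩).congr ?_
      intro z hz
      simp only [min_eq_left ht, max_eq_right (show 2 * t - 1 ≤ 0 by linarith), (h3' z hz).1,
        add_sub_cancel_right]
    · refine (h2' (2 * t - 1) ⟨by linarith, by linarith⟩).congr ?_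
      intro z hz
      simp only [min_eq_right ht, max_eq_left (show 0 ≤ 2 * t - 1 by linarith), (h3 z hz).2,
        add_sub_cancel_left]
  · intro z hz
    constructor
    · simp [(h3 z hz).1, (h3' z hz).1]
    · have e1 : min (2 * (1 : ℝ)) 1 = 1 := by norm_num
      have e2 : max (2 * (1 : ℝ) - 1) 0 = 1 := by norm_num
      simp only [e1, e2, (h3 z hz).2, (h3' z hz).2, add_sub_cancel_left]

theorem Htp.post {U : Set E} {V : Set F} {W : Set G} {f g : E → F} {c : F → G}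
    (h : Htp U V f g) (hc : Prp V W c) : Htp U W (c ∘ f) (c ∘ g) := by
  obtain ⟨H, h1, h2, h3⟩ := h
  refine ⟨fun t => c ∘ H t, ?_, fun t ht => hc.comp (h2 t ht), ?_⟩
  · exact hc.diff.continuousOn.comp h1 (fun x hx => (h2 x.1 hx.1).maps hx.2)
  · intro z hz
    simp only [Function.comp, (h3 z hz).1, (h3 z hz).2, and_self]

theorem Htp.pre {U : Set E} {V : Set F} {W : Set G} {f g : F → G} {c : E → F}
    (h : Htp V W f g) (hc : Prp U V c) : Htp U W (f ∘ c) (g ∘ c) := by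
  obtain ⟨H, h1, h2, h3⟩ := h
  refine ⟨fun t => H t ∘ c, ?_, fun t ht => (h2 t ht).comp hc, ?_⟩
  · refine h1.comp (f := fun x : ℝ × E => (x.1, c x.2)) ?_ ?_
    · exact continuousOn_fst.prodMk
        (hc.diff.continuousOn.comp continuousOn_snd (fun _ hx => hx.2))
    · exact fun x hx => ⟨hx.1, hc.maps hx.2⟩
  · intro z hz
    simp only [Function.comp, (h3 _ (hc.maps hz)).1, (h3 _ (hc.maps hz)).2, and_self]

end Pool.Agent.MP_eddcad_an

end MrgPart0

-- ======== part 1: formerly Pool.Agent.MP_eddcad_an.Siegel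
section MrgPart1

set_option autoImplicit false

namespace Pool.Agent.MP_eddcad_an

open Set Filter Topology Metric
open scoped InnerProductSpace ComplexConjugate

variable {E : Type*} [NormedAddCommGroup E] [InnerProductSpace ℂ E]

/-- component orthogonal to `p` -/
noncomputable def pr (p y : E) : E := y - (⟪p, y⟫_ℂ) • p

/-- defining function of the Siegel domain -/
noncomputable def rr (p y : E) : ℝ := 2 * (⟪p, y⟫_ℂ).re - ‖pr p y‖ ^ 2

/-- Siegel domain -/
def Sg (p : E) : Set E := {y | 0 < rr p y}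

/-- Cayley involution -/
noncomputable def cay (p z : E) : E :=
  (1 + ⟪p, z⟫_ℂ)⁻¹ • (((√2 : ℝ) : ℂ) • pr p z + (1 - ⟪p, z⟫_ℂ) • p)

/-- non-isotropic dilation -/
noncomputable def dil (p : E) (s : ℝ) (y : E) : E :=
  (s : ℂ) • pr p y + ((s : ℂ) ^ 2 * ⟪p, y⟫_ℂ) • p

theorem inner_pp {p : E} (hp : ‖p‖ = 1) : ⟪p, p⟫_ℂ = 1 := by
  rw [inner_self_eq_norm_sq_to_K, hp]; simp

theorem inner_pr {p : E} (hp : ‖p‖ = 1) (y : E) : ⟪p, pr p y⟫_ℂ = 0 := by
  simp only [pr, inner_sub_right, inner_smul_right, inner_pp hp, mul_one, sub_self]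

theorem inner_dec {p ξ : E} (hp : ‖p‖ = 1) (hξ : ⟪p, ξ⟫_ℂ = 0) (b : ℂ) :
    ⟪p, ξ + b • p⟫_ℂ = b := by
  simp only [inner_add_right, inner_smul_right, inner_pp hp, hξ, mul_one, zero_add]

theorem pr_dec {p ξ : E} (hp : ‖p‖ = 1) (hξ : ⟪p, ξ⟫_ℂ = 0) (b : ℂ) :
    pr p (ξ + b • p) = ξ := by
  rw [pr, inner_dec hp hξ, add_sub_cancel_right]

theorem pr_add (p y : E) : pr p y + (⟪p, y⟫_ℂ) • p = y := by
  simp [pr]

theorem inner_smul_pr {p : E} (hp : ‖p‖ = 1) (c : ℂ) (y : E) : ⟪p, c • pr p y⟫_ℂ = 0 := by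
  rw [inner_smul_right, inner_pr hp, mul_zero]

theorem norm_dec {p ξ : E} (hp : ‖p‖ = 1) (hξ : ⟪p, ξ⟫_ℂ = 0) (b : ℂ) :
    ‖ξ + b • p‖ ^ 2 = ‖ξ‖ ^ 2 + ‖b‖ ^ 2 := by
  have h : ⟪ξ, b • p⟫_ℂ = 0 := by
    rw [inner_smul_right, ← inner_conj_symm, hξ]; simp
  have := norm_add_sq_eq_norm_sq_add_norm_sq_of_inner_eq_zero ξ (b • p) h
  rw [norm_smul, hp, mul_one] at this
  nlinarith

theorem norm_sq_pr {p : E} (hp : ‖p‖ = 1) (y : E) :
    ‖y‖ ^ 2 = ‖pr p y‖ ^ 2 + ‖⟪p, y⟫_ℂ‖ ^ 2 := by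
  conv_lhs => rw [← pr_add p y]
  exact norm_dec hp (inner_pr hp y) _

theorem rr_dec {p ξ : E} (hp : ‖p‖ = 1) (hξ : ⟪p, ξ⟫_ℂ = 0) (b : ℂ) :
    rr p (ξ + b • p) = 2 * b.re - ‖ξ‖ ^ 2 := by
  rw [rr, inner_dec hp hξ, pr_dec hp hξ]

@[fun_prop]
theorem continuous_pr (p : E) : Continuous (pr p) := by
  unfold pr; fun_prop

@[fun_prop]
theorem continuous_rr (p : E) : Continuous (rr p) := by
  unfold rr; fun_prop

theorem isOpen_Sg (p : E) : IsOpen (Sg p) := isOpen_lt continuous_const (continuous_rr p)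

theorem differentiable_inner (p : E) : Differentiable ℂ (fun y : E => ⟪p, y⟫_ℂ) :=
  (innerSL ℂ p).differentiable

theorem analyticAt_inner (p x : E) : AnalyticAt ℂ (fun y : E => ⟪p, y⟫_ℂ) x :=
  (innerSL ℂ p).analyticAt x

theorem analyticAt_pr (p x : E) : AnalyticAt ℂ (pr p) x :=
  analyticAt_id.sub ((analyticAt_inner p x).smul analyticAt_const)

theorem analyticAt_cay (p x : E) (hx : 1 + ⟪p, x⟫_ℂ ≠ 0) : AnalyticAt ℂ (cay p) x := by
  refine AnalyticAt.smul ((analyticAt_const.add (analyticAt_inner p x)).inv hx) ?_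
  exact (analyticAt_const.smul (analyticAt_pr p x)).add
    ((analyticAt_const.sub (analyticAt_inner p x)).smul analyticAt_const)

theorem analyticAt_dil (p : E) (s : ℝ) (x : E) : AnalyticAt ℂ (dil p s) x :=
  (analyticAt_const.smul (analyticAt_pr p x)).add
    ((analyticAt_const.mul (analyticAt_inner p x)).smul analyticAt_const)

theorem cay_eq (p z : E) : cay p z = ((1 + ⟪p, z⟫_ℂ)⁻¹ * ((√2 : ℝ) : ℂ)) • pr p z +
    ((1 + ⟪p, z⟫_ℂ)⁻¹ * (1 - ⟪p, z⟫_ℂ)) • p := by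
  rw [cay, smul_add, smul_smul, smul_smul]

theorem inner_cay {p : E} (hp : ‖p‖ = 1) (z : E) :
    ⟪p, cay p z⟫_ℂ = (1 + ⟪p, z⟫_ℂ)⁻¹ * (1 - ⟪p, z⟫_ℂ) := by
  rw [cay_eq, inner_dec hp (inner_smul_pr hp _ _)]

theorem pr_cay {p : E} (hp : ‖p‖ = 1) (z : E) :
    pr p (cay p z) = ((1 + ⟪p, z⟫_ℂ)⁻¹ * ((√2 : ℝ) : ℂ)) • pr p z := by
  rw [cay_eq, pr_dec hp (inner_smul_pr hp _ _)]

theorem one_add_inner_cay {p : E} (hp : ‖p‖ = 1) (z : E) (hz : 1 + ⟪p, z⟫_ℂ ≠ 0) :
    1 + ⟪p, cay p z⟫_ℂ = 2 * (1 + ⟪p, z⟫_ℂ)⁻¹ := by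
  rw [inner_cay hp]; field_simp; ring

theorem cay_cay {p : E} (hp : ‖p‖ = 1) (z : E) (hz : 1 + ⟪p, z⟫_ℂ ≠ 0) :
    cay p (cay p z) = z := by
  rw [cay_eq p (cay p z), one_add_inner_cay hp z hz, pr_cay hp, inner_cay hp, smul_smul]
  conv_rhs => rw [← pr_add p z]
  have h2 : ((√2 : ℝ) : ℂ) * ((√2 : ℝ) : ℂ) = 2 := by
    rw [← Complex.ofReal_mul, Real.mul_self_sqrt (by norm_num)]; simp
  congr 1
  · conv_rhs => rw [← one_smul ℂ (pr p z)]
    congr 1
    field_simp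
    linear_combination h2
  · congr 1
    field_simp
    ring

theorem rr_cay {p : E} (hp : ‖p‖ = 1) (z : E) (hz : 1 + ⟪p, z⟫_ℂ ≠ 0) :
    rr p (cay p z) * ‖1 + ⟪p, z⟫_ℂ‖ ^ 2 = 2 * (1 - ‖z‖ ^ 2) := by
  rw [rr, inner_cay hp, pr_cay hp, norm_sq_pr hp z, norm_smul, norm_mul, norm_inv, mul_pow,
    mul_pow, Complex.norm_real, Real.norm_eq_abs, sq_abs, Real.sq_sqrt (by norm_num)]
  set u := ⟪p, z⟫_ℂ
  have h0 : ‖1 + u‖ ^ 2 ≠ 0 := pow_ne_zero _ (norm_ne_zero_iff.2 hz)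
  have h1 : ((1 + u)⁻¹ * (1 - u)).re * ‖1 + u‖ ^ 2 = 1 - ‖u‖ ^ 2 := by
    rw [Complex.inv_def, Complex.normSq_eq_norm_sq] 
    have : (conj (1 + u) * ((‖1 + u‖ ^ 2)⁻¹ : ℝ) * (1 - u)).re =
        (conj (1 + u) * (1 - u)).re * (‖1 + u‖ ^ 2)⁻¹ := by
      rw [mul_right_comm, Complex.re_mul_ofReal]
    rw [this, mul_assoc, inv_mul_cancel₀ h0, mul_one, Complex.sq_norm, Complex.normSq_apply]
    simp
    ring
  rw [sub_mul, mul_assoc, h1, inv_pow]
  field_simp
  ring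

theorem ball_ne {p : E} (hp : ‖p‖ = 1) {z : E} (hz : z ∈ ball (0 : E) 1) :
    1 + ⟪p, z⟫_ℂ ≠ 0 := by
  intro h
  have h1 : ⟪p, z⟫_ℂ = -1 := by linear_combination h
  have h2 := norm_inner_le_norm (𝕜 := ℂ) p z
  rw [h1, hp] at h2
  simp only [mem_ball, dist_zero_right] at hz
  simp at h2
  linarith

theorem Sg_re {p y : E} (hy : y ∈ Sg p) : 0 < (⟪p, y⟫_ℂ).re := by
  have h1 : 0 < rr p y := hy
  unfold rr at h1
  nlinarith [sq_nonneg ‖pr p y‖]

theorem Sg_ne {p y : E} (hy : y ∈ Sg p) : 1 + ⟪p, y⟫_ℂ ≠ 0 := by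
  intro h
  have h1 := congrArg Complex.re h
  have := Sg_re hy
  simp at h1
  linarith

theorem cay_maps_ball {p : E} (hp : ‖p‖ = 1) : MapsTo (cay p) (ball (0 : E) 1) (Sg p) := by
  intro z hz
  have h := rr_cay hp z (ball_ne hp hz)
  have h0 : 0 < ‖1 + ⟪p, z⟫_ℂ‖ ^ 2 := pow_pos (norm_pos_iff.2 (ball_ne hp hz)) _
  simp only [mem_ball, dist_zero_right] at hz
  have h1 : 0 < 1 - ‖z‖ ^ 2 := by nlinarith [norm_nonneg z]
  change 0 < rr p (cay p z)
  by_contra hc
  push Not at hc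
  nlinarith

theorem cay_maps_Sg {p : E} (hp : ‖p‖ = 1) : MapsTo (cay p) (Sg p) (ball (0 : E) 1) := by
  intro y hy
  have h1 : 1 + ⟪p, cay p y⟫_ℂ ≠ 0 := by
    rw [one_add_inner_cay hp y (Sg_ne hy)]
    exact mul_ne_zero two_ne_zero (inv_ne_zero (Sg_ne hy))
  have h := rr_cay hp _ h1
  rw [cay_cay hp y (Sg_ne hy)] at h
  have h0 : 0 < ‖1 + ⟪p, cay p y⟫_ℂ‖ ^ 2 := pow_pos (norm_pos_iff.2 h1) _
  have h2 : 0 < rr p y := hy
  have h3 : 0 < 1 - ‖cay p y‖ ^ 2 := by nlinarith [mul_pos h2 h0]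
  simp only [mem_ball, dist_zero_right]
  nlinarith [norm_nonneg (cay p y)]

theorem prp_cay_ball {p : E} (hp : ‖p‖ = 1) : Prp (ball (0 : E) 1) (Sg p) (cay p) :=
  Prp.of_inv (c' := cay p)
    (fun z hz => (analyticAt_cay p z (ball_ne hp hz)).differentiableAt.differentiableWithinAt)
    (cay_maps_ball hp)
    (fun z hz => (analyticAt_cay p z (Sg_ne hz)).continuousAt.continuousWithinAt)
    (cay_maps_Sg hp) (fun z hz => cay_cay hp z (ball_ne hp hz))
    (fun z hz => cay_cay hp z (Sg_ne hz))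

theorem prp_cay_Sg {p : E} (hp : ‖p‖ = 1) : Prp (Sg p) (ball (0 : E) 1) (cay p) :=
  Prp.of_inv (c' := cay p)
    (fun z hz => (analyticAt_cay p z (Sg_ne hz)).differentiableAt.differentiableWithinAt)
    (cay_maps_Sg hp)
    (fun z hz => (analyticAt_cay p z (ball_ne hp hz)).continuousAt.continuousWithinAt)
    (cay_maps_ball hp) (fun z hz => cay_cay hp z (Sg_ne hz))
    (fun z hz => cay_cay hp z (ball_ne hp hz))

theorem inner_dil {p : E} (hp : ‖p‖ = 1) (s : ℝ) (y : E) :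
    ⟪p, dil p s y⟫_ℂ = (s : ℂ) ^ 2 * ⟪p, y⟫_ℂ := by
  rw [dil, inner_dec hp (inner_smul_pr hp _ _)]

theorem pr_dil {p : E} (hp : ‖p‖ = 1) (s : ℝ) (y : E) :
    pr p (dil p s y) = (s : ℂ) • pr p y := by
  rw [dil, pr_dec hp (inner_smul_pr hp _ _)]

theorem rr_dil {p : E} (hp : ‖p‖ = 1) (s : ℝ) (y : E) :
    rr p (dil p s y) = s ^ 2 * rr p y := by
  rw [rr, inner_dil hp, pr_dil hp, rr, norm_smul, ← Complex.ofReal_pow, Complex.re_ofReal_mul,
    Complex.norm_real, mul_pow, Real.norm_eq_abs, sq_abs]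
  ring

theorem dil_dil {p : E} (hp : ‖p‖ = 1) (s t : ℝ) (y : E) :
    dil p s (dil p t y) = dil p (s * t) y := by
  rw [dil, inner_dil hp, pr_dil hp, dil, smul_smul]
  push_cast
  congr 2
  ring

theorem dil_one (p y : E) : dil p 1 y = y := by
  simp [dil, pr]

theorem dil_maps {p : E} (hp : ‖p‖ = 1) {s : ℝ} (hs : s ≠ 0) :
    MapsTo (dil p s) (Sg p) (Sg p) := by
  intro y hy
  change 0 < rr p (dil p s y)
  rw [rr_dil hp]
  exact mul_pos (by positivity) hy

theorem prp_dil {p : E} (hp : ‖p‖ = 1) {s : ℝ} (hs : s ≠ 0) : Prp (Sg p) (Sg p) (dil p s) :=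
  Prp.of_inv (c' := dil p s⁻¹)
    (fun z _ => (analyticAt_dil p s z).differentiableAt.differentiableWithinAt)
    (dil_maps hp hs)
    (fun z _ => (analyticAt_dil p _ z).continuousAt.continuousWithinAt)
    (dil_maps hp (inv_ne_zero hs))
    (fun z _ => by rw [dil_dil hp, inv_mul_cancel₀ hs, dil_one])
    (fun z _ => by rw [dil_dil hp, mul_inv_cancel₀ hs, dil_one])

theorem continuous_dil (p : E) : Continuous (fun x : ℝ × E => dil p x.1 x.2) := by
  unfold dil; fun_prop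

theorem htp_dil {p : E} (hp : ‖p‖ = 1) {s : ℝ} (hs : 0 < s) :
    Htp (Sg p) (Sg p) (dil p s) id := by
  refine ⟨fun t => dil p ((1 - t) * s + t), ?_, ?_, ?_⟩
  · exact ((continuous_dil p).comp
      (f := fun x : ℝ × E => ((1 - x.1) * s + x.1, x.2)) (by fun_prop)).continuousOn
  · rintro t ⟨a, b⟩
    refine prp_dil hp (ne_of_gt ?_)
    rcases eq_or_lt_of_le b with h | h
    · rw [h]; norm_num
    · have : 0 < (1 - t) * s := mul_pos (by linarith) hs
      linarith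
  · intro z _
    simp [dil_one]

theorem mem_closure_Sg {p : E} (hp : ‖p‖ = 1) {y : E} (hy : rr p y = 0) :
    y ∈ closure (Sg p) := by
  have hc : ContinuousAt (fun e : ℝ => y + (e : ℂ) • p) 0 := by fun_prop
  have h1 : Tendsto (fun e : ℝ => y + (e : ℂ) • p) (𝓝[>] 0) (𝓝 y) := by
    have := hc.tendsto
    simp only [Complex.ofReal_zero, zero_smul, add_zero] at this
    exact this.mono_left nhdsWithin_le_nhds
  refine mem_closure_of_tendsto h1 ?_
  filter_upwards [self_mem_nhdsWithin] with e he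
  change 0 < rr p (y + (e : ℂ) • p)
  have : y + (e : ℂ) • p = pr p y + (⟪p, y⟫_ℂ + e) • p := by
    rw [add_smul, ← add_assoc, pr_add]
  rw [this, rr_dec hp (inner_pr hp y)]
  unfold rr at hy
  have he' : (0 : ℝ) < e := he
  simp only [Complex.add_re, Complex.ofReal_re]
  linarith

theorem rr_of_boundary {p y : E} (h1 : y ∈ closure (Sg p)) (h2 : y ∉ Sg p) : rr p y = 0 := by
  have h3 : 0 ≤ rr p y := by
    have : closure (Sg p) ⊆ {y | 0 ≤ rr p y} :=
      closure_minimal (fun y (hy : 0 < rr p y) => hy.le)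
        (isClosed_le continuous_const (continuous_rr p))
    exact this h1
  have h4 : ¬ 0 < rr p y := h2
  linarith

end Pool.Agent.MP_eddcad_an

end MrgPart1

-- ======== part 2: formerly Pool.Agent.MP_eddcad_an.Taylor
section MrgPart2

set_option autoImplicit false

namespace Pool.Agent.MP_eddcad_an

open Set Filter Topology Metric Asymptotics
open scoped InnerProductSpace ComplexConjugate

theorem harnack (k : ℂ → ℂ) (hk : DifferentiableOn ℂ k (ball 1 1))
    (hpos : ∀ u ∈ ball (1 : ℂ) 1, 0 < (k u).re) (x : ℝ) (hx0 : 0 < x) (hx1 : x ≤ 1) :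
    x * (k 1).re / 4 ≤ (k x).re := by
  have h1 : (1 : ℂ) ∈ ball (1 : ℂ) 1 := mem_ball_self one_pos
  have hk0 := hpos 1 h1
  set k0 := k 1 with hk0def
  have hne : ∀ u ∈ ball (1 : ℂ) 1, k u + conj k0 ≠ 0 := by
    intro u hu h
    have h2 := congrArg Complex.re h
    have := hpos u hu
    simp at h2
    linarith
  have key : ∀ w : ℂ, ‖w + conj k0‖ ^ 2 - ‖w - k0‖ ^ 2 = 4 * w.re * k0.re := by
    intro w
    rw [Complex.sq_norm, Complex.sq_norm, Complex.normSq_apply, Complex.normSq_apply]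
    simp
    ring
  let g : ℂ → ℂ := fun u => (k u - k0) / (k u + conj k0)
  have hg : DifferentiableOn ℂ g (ball 1 1) :=
    (hk.sub_const _).div (hk.add_const _) hne
  have hg1 : g 1 = 0 := by simp [g, hk0def]
  have hgm : MapsTo g (ball 1 1) (closedBall (g 1) 1) := by
    intro u hu
    rw [hg1, mem_closedBall, dist_zero_right, norm_div,
      div_le_one (norm_pos_iff.2 (hne u hu))]
    have h2 := key (k u)
    have h3 := mul_pos (hpos u hu) hk0
    exact (pow_le_pow_iff_left₀ (norm_nonneg _) (norm_nonneg _) two_ne_zero).1 (by nlinarith)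
  have hxb : (x : ℂ) ∈ ball (1 : ℂ) 1 := by
    rw [mem_ball, dist_eq_norm]
    have : (x : ℂ) - 1 = ((x - 1 : ℝ) : ℂ) := by push_cast; ring
    rw [this, Complex.norm_real, Real.norm_eq_abs, abs_lt]
    constructor <;> linarith
  have h4 := Complex.dist_le_dist_of_mapsTo_ball hg hgm hxb
  rw [hg1, dist_zero_right, dist_eq_norm, norm_div,
    div_le_iff₀ (norm_pos_iff.2 (hne _ hxb))] at h4
  have h5 : ‖(x : ℂ) - 1‖ = 1 - x := by
    have : (x : ℂ) - 1 = ((x - 1 : ℝ) : ℂ) := by push_cast; ring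
    rw [this, Complex.norm_real, Real.norm_eq_abs, abs_of_nonpos (by linarith)]
    ring
  rw [h5] at h4
  have h6 := key (k x)
  have h7 : k0.re ≤ ‖k x + conj k0‖ := by
    have := Complex.re_le_norm (k x + conj k0)
    have h8 := hpos _ hxb
    simp at this
    linarith
  have h9 : ‖k x - k0‖ ^ 2 ≤ ((1 - x) * ‖k x + conj k0‖) ^ 2 :=
    pow_le_pow_left₀ (norm_nonneg _) h4 2
  have h10 : k0.re ^ 2 ≤ ‖k x + conj k0‖ ^ 2 := pow_le_pow_left₀ hk0.le h7 2
  have h11 : x * k0.re ^ 2 ≤ 4 * (k x).re * k0.re := by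
    have : x * k0.re ^ 2 ≤ x * (2 - x) * ‖k x + conj k0‖ ^ 2 := by
      have h12 : x * k0.re ^ 2 ≤ x * ‖k x + conj k0‖ ^ 2 := by gcongr
      have h13 : 0 ≤ x * (1 - x) * ‖k x + conj k0‖ ^ 2 := by
        have : 0 ≤ 1 - x := by linarith
        positivity
      nlinarith
    nlinarith
  have h12 : (x * k0.re) * k0.re ≤ (4 * (k x).re) * k0.re := by nlinarith
  have := le_of_mul_le_mul_right h12 hk0
  linarith

variable {E F : Type*} [NormedAddCommGroup E] [InnerProductSpace ℂ E]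
  [NormedAddCommGroup F] [InnerProductSpace ℂ F]

theorem taylor2 (Φ : E → F) (ha : AnalyticAt ℂ Φ 0) (h0 : Φ 0 = 0) :
    ∃ (L : E →L[ℂ] F) (B : E → F), Continuous B ∧ (∀ (c : ℂ) y, B (c • y) = c ^ 2 • B y) ∧
      (fun y => Φ y - L y - B y) =O[𝓝 0] fun y => ‖y‖ ^ 3 := by
  obtain ⟨q, hq⟩ := ha
  refine ⟨continuousMultilinearCurryFin1 ℂ E F (q 1), fun y => q 2 (fun _ => y), ?_, ?_, ?_⟩
  · exact (q 2).cont.comp (continuous_pi fun _ => continuous_id)
  · intro c y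
    have := (q 2).map_smul_univ (fun _ => c) (fun _ => y)
    simpa using this
  · refine (hq.isBigO_sub_partialSum_pow 3).congr_left ?_
    intro y
    have e0 : q 0 (fun _ => y) = 0 := by rw [hq.coeff_zero, h0]
    have e1 : continuousMultilinearCurryFin1 ℂ E F (q 1) y = q 1 (fun _ => y) := by
      rw [continuousMultilinearCurryFin1_apply]
      congr 1
    simp only [FormalMultilinearSeries.partialSum, Finset.sum_range_succ, Finset.range_zero,
      Finset.sum_empty, zero_add, e0, e1]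
    abel

/-- `dil p s y = s • mm p s y` -/
noncomputable def mm (p : E) (s : ℝ) (y : E) : E := pr p y + ((s : ℂ) * ⟪p, y⟫_ℂ) • p

theorem dil_eq_mm (p : E) (s : ℝ) (y : E) : dil p s y = (s : ℂ) • mm p s y := by
  rw [dil, mm, smul_add, smul_smul]
  congr 2
  ring

theorem mm_zero (p y : E) : mm p 0 y = pr p y := by simp [mm]

@[fun_prop]
theorem continuous_mm (p : E) : Continuous (fun x : ℝ × E => mm p x.1 x.2) := by
  unfold mm; fun_prop

theorem rem_tendsto (p : E) (R : E → F) (hR : R =O[𝓝 0] fun y => ‖y‖ ^ 3) (y₀ : E) :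
    Tendsto (fun x : ℝ × E => ((x.1 : ℂ) ^ 2)⁻¹ • R ((x.1 : ℂ) • mm p x.1 x.2))
      (𝓝 (0, y₀)) (𝓝 0) := by
  have h1 : Tendsto (fun x : ℝ × E => (x.1 : ℂ) • mm p x.1 x.2) (𝓝 (0, y₀)) (𝓝 0) := by
    have hc : Continuous (fun x : ℝ × E => (x.1 : ℂ) • mm p x.1 x.2) := by fun_prop
    have := hc.tendsto (0, y₀)
    simpa using this
  obtain ⟨C, hC⟩ := (hR.comp_tendsto h1).bound
  have h2 : Tendsto (fun x : ℝ × E => |C| * |x.1| * ‖mm p x.1 x.2‖ ^ 3) (𝓝 (0, y₀)) (𝓝 0) := by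
    have hc : Continuous (fun x : ℝ × E => |C| * |x.1| * ‖mm p x.1 x.2‖ ^ 3) := by fun_prop
    have := hc.tendsto (0, y₀)
    simpa using this
  refine squeeze_zero_norm' ?_ h2
  filter_upwards [hC] with x hx
  simp only [Function.comp, norm_pow, norm_norm] at hx
  rcases eq_or_ne x.1 0 with h | h
  · simp [h]
  · rw [norm_smul, norm_inv, norm_pow, Complex.norm_real, Real.norm_eq_abs]
    rw [norm_smul, Complex.norm_real, Real.norm_eq_abs] at hx
    have h3 : 0 < |x.1| := abs_pos.2 h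
    rw [inv_mul_le_iff₀ (by positivity)]
    calc ‖R ((x.1 : ℂ) • mm p x.1 x.2)‖ ≤ C * (|x.1| * ‖mm p x.1 x.2‖) ^ 3 := hx
      _ ≤ |C| * (|x.1| * ‖mm p x.1 x.2‖) ^ 3 := by gcongr; exact le_abs_self C
      _ = |x.1| ^ 2 * (|C| * |x.1| * ‖mm p x.1 x.2‖ ^ 3) := by ring

end Pool.Agent.MP_eddcad_an

end MrgPart2

-- ======== part 3: formerly Pool.Agent.MP_eddcad_an.Rescale
section MrgPart3

set_option autoImplicit false

namespace Pool.Agent.MP_eddcad_an

open Set Filter Topology Metric Asymptotics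
open scoped InnerProductSpace ComplexConjugate

variable {E F : Type*} [NormedAddCommGroup E] [InnerProductSpace ℂ E]
  [NormedAddCommGroup F] [InnerProductSpace ℂ F]

theorem pr_plus (p a b : E) : pr p (a + b) = pr p a + pr p b := by
  simp only [pr, inner_add_right, add_smul]; abel

theorem pr_smul (p a : E) (c : ℂ) : pr p (c • a) = c • pr p a := by
  simp only [pr, inner_smul_right, smul_sub, smul_smul]

theorem pr_of_orth {p a : E} (h : ⟪p, a⟫_ℂ = 0) : pr p a = a := by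
  simp [pr, h]

/-- the algebra at the boundary -/
theorem boundary_algebra {p : E} {p' : F} (L : E →L[ℂ] F) (B : E → F)
    (hBh : ∀ (c : ℂ) y, B (c • y) = c ^ 2 • B y) (α : ℂ)
    (h : ∀ ξ : E, ⟪p, ξ⟫_ℂ = 0 → ∀ τ : ℝ,
      2 * ((((‖ξ‖ ^ 2 / 2 : ℝ) : ℂ) + τ * Complex.I) * α + ⟪p', B ξ⟫_ℂ).re = ‖L ξ‖ ^ 2) :
    α.im = 0 ∧ ∀ ξ : E, ⟪p, ξ⟫_ℂ = 0 → ⟪p', B ξ⟫_ℂ = 0 ∧ ‖L ξ‖ ^ 2 = α.re * ‖ξ‖ ^ 2 := by
  have hB0 : B 0 = 0 := by
    have := hBh 0 0
    simpa using this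
  have h1 : α.im = 0 := by
    have := h 0 (inner_zero_right _) 1
    simpa [hB0] using this
  have h2 : ∀ ξ : E, ⟪p, ξ⟫_ℂ = 0 →
      ‖ξ‖ ^ 2 * α.re + 2 * (⟪p', B ξ⟫_ℂ).re = ‖L ξ‖ ^ 2 := by
    intro ξ hξ
    have := h ξ hξ 0
    rw [Complex.ofReal_zero, zero_mul, add_zero, Complex.add_re, Complex.re_ofReal_mul] at this
    linarith
  have h3 : ∀ ξ : E, ⟪p, ξ⟫_ℂ = 0 → (⟪p', B ξ⟫_ℂ).re = 0 := by
    intro ξ hξ
    have a1 := h2 ξ hξ
    have a2 := h2 (Complex.I • ξ) (by rw [inner_smul_right, hξ, mul_zero])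
    rw [hBh, map_smul, norm_smul, norm_smul, inner_smul_right, Complex.I_sq] at a2
    simp at a2
    linarith
  refine ⟨h1, fun ξ hξ => ⟨?_, ?_⟩⟩
  · have a1 := h3 ξ hξ
    have a2 := h3 ((1 + Complex.I) • ξ) (by rw [inner_smul_right, hξ, mul_zero])
    have e : (1 + Complex.I) ^ 2 = 2 * Complex.I := by
      linear_combination Complex.I_sq
    rw [hBh, inner_smul_right, e] at a2
    simp at a2
    exact Complex.ext a1 a2
  · have a1 := h2 ξ hξ
    rw [h3 ξ hξ] at a1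
    linarith

theorem exists_iso {p : E} {p' : F} (hp : ‖p‖ = 1) (hp' : ‖p'‖ = 1) (L : E →L[ℂ] F) (σ : ℝ)
    (hσ : 0 < σ) (hL : ∀ ξ : E, ⟪p, ξ⟫_ℂ = 0 → ⟪p', L ξ⟫_ℂ = 0)
    (hn : ∀ ξ : E, ⟪p, ξ⟫_ℂ = 0 → ‖L ξ‖ ^ 2 = σ ^ 2 * ‖ξ‖ ^ 2) :
    ∃ A : E →ₗᵢ[ℂ] F, ∀ y, A y = (σ : ℂ)⁻¹ • L (pr p y) + (⟪p, y⟫_ℂ) • p' := by
  let A₀ : E →ₗ[ℂ] F :=
    { toFun := fun y => (σ : ℂ)⁻¹ • L (pr p y) + (⟪p, y⟫_ℂ) • p'
      map_add' := by
        intro a b
        simp only [pr_plus, map_add, inner_add_right, smul_add, add_smul]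
        abel
      map_smul' := by
        intro c a
        simp only [pr_smul, map_smul, inner_smul_right, smul_add, smul_smul, RingHom.id_apply,
          mul_comm] }
  refine ⟨⟨A₀, ?_⟩, fun y => rfl⟩
  intro y
  change ‖(σ : ℂ)⁻¹ • L (pr p y) + (⟪p, y⟫_ℂ) • p'‖ = ‖y‖
  refine (pow_left_inj₀ (norm_nonneg _) (norm_nonneg _) two_ne_zero).1 ?_
  rw [norm_dec hp' (by rw [inner_smul_right, hL _ (inner_pr hp y), mul_zero]), norm_sq_pr hp y,
    norm_smul, mul_pow, hn _ (inner_pr hp y), norm_inv, Complex.norm_real, Real.norm_eq_abs,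
    abs_of_pos hσ]
  field_simp

theorem inner_iso (A : E →ₗᵢ[ℂ] F) (p y : E) : ⟪A p, A y⟫_ℂ = ⟪p, y⟫_ℂ :=
  A.inner_map_map p y

theorem pr_iso (A : E →ₗᵢ[ℂ] F) (p y : E) : pr (A p) (A y) = A (pr p y) := by
  simp only [pr, inner_iso, map_sub, map_smul]

theorem rr_iso (A : E →ₗᵢ[ℂ] F) (p y : E) : rr (A p) (A y) = rr p y := by
  simp only [rr, inner_iso, pr_iso, A.norm_map]

theorem cay_iso (A : E →ₗᵢ[ℂ] F) (p y : E) : cay (A p) (A y) = A (cay p y) := by
  simp only [cay, inner_iso, pr_iso, map_add, map_smul]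

theorem rescale [FiniteDimensional ℂ E] [FiniteDimensional ℂ F] {p : E} {p' : F}
    (hp : ‖p‖ = 1) (hp' : ‖p'‖ = 1) {Φ : E → F}
    (hΦ : Prp (Sg p) (Sg p') Φ) (ha : AnalyticAt ℂ Φ 0) (h0 : Φ 0 = 0) :
    ∃ A : E →ₗᵢ[ℂ] F, A p = p' ∧ Htp (Sg p) (Sg p') Φ A := by
  have : CompleteSpace E := FiniteDimensional.complete ℂ E
  have : ProperSpace F := FiniteDimensional.proper ℂ F
  obtain ⟨L, B, hBc, hBh, hR⟩ := taylor2 Φ ha h0
  set R : E → F := fun y => Φ y - L y - B y with hRdef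
  let β : ℝ × E → F := fun x =>
    B (mm p x.1 x.2) + ((x.1 : ℂ) ^ 2)⁻¹ • R ((x.1 : ℂ) • mm p x.1 x.2)
  have hβ0 : ∀ y, β (0, y) = B (pr p y) := by
    intro y; simp [β, mm_zero]
  have hβc0 : ∀ y, ContinuousAt β (0, y) := by
    intro y
    have h1 : ContinuousAt (fun x : ℝ × E => B (mm p x.1 x.2)) (0, y) :=
      (hBc.comp (continuous_mm p)).continuousAt
    have h2 := h1.tendsto.add (rem_tendsto p R hR y)
    rw [ContinuousAt, hβ0]
    rw [mm_zero, add_zero] at h2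
    exact h2
  have hβc : ∀ s : ℝ, s ≠ 0 → ∀ y ∈ Sg p, ContinuousAt β (s, y) := by
    intro s hs y hy
    have h1 : ContinuousAt (fun x : ℝ × E => B (mm p x.1 x.2)) (s, y) :=
      (hBc.comp (continuous_mm p)).continuousAt
    have h2 : ContinuousAt Φ ((s : ℂ) • mm p s y) := by
      rw [← dil_eq_mm]
      exact hΦ.diff.continuousOn.continuousAt ((isOpen_Sg p).mem_nhds (dil_maps hp hs hy))
    have h3 : ContinuousAt R ((s : ℂ) • mm p s y) :=
      (h2.sub L.continuous.continuousAt).sub hBc.continuousAt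
    have h4 : ContinuousAt (fun x : ℝ × E => R ((x.1 : ℂ) • mm p x.1 x.2)) (s, y) :=
      ContinuousAt.comp (f := fun x : ℝ × E => (x.1 : ℂ) • mm p x.1 x.2) (x := (s, y)) h3
        (by fun_prop)
    have h5 : ContinuousAt (fun x : ℝ × E => ((x.1 : ℂ) ^ 2)⁻¹) (s, y) :=
      ContinuousAt.inv₀ (by fun_prop) (by simpa using hs)
    exact h1.add (h5.smul h4)
  have hexp : ∀ s : ℝ, s ≠ 0 → ∀ y, Φ (dil p s y) =
      (s : ℂ) • L (mm p s y) + (s : ℂ) ^ 2 • β (s, y) := by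
    intro s hs y
    have hs' : (s : ℂ) ^ 2 ≠ 0 := by simpa using hs
    simp only [β, hRdef, smul_add, smul_smul, mul_inv_cancel₀ hs', one_smul, hBh, map_smul,
      dil_eq_mm]
    abel
  have hline : ∀ y : E, Tendsto (fun s : ℝ => (s, y)) (𝓝[>] 0) (𝓝 (0, y)) := by
    intro y
    have : Continuous (fun s : ℝ => (s, y)) := by fun_prop
    exact (this.tendsto 0).mono_left nhdsWithin_le_nhds
  have hL1 : ∀ ξ : E, ⟪p, ξ⟫_ℂ = 0 → 0 ≤ (⟪p', L ξ⟫_ℂ).re := by
    intro ξ hξ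
    let y : E := ξ + ((‖ξ‖ ^ 2 / 2 + 1 : ℝ) : ℂ) • p
    have hy : y ∈ Sg p := by
      change 0 < rr p y
      rw [rr_dec hp hξ, Complex.ofReal_re]
      linarith
    have hc : ContinuousAt
        (fun x : ℝ × E => (⟪p', L (mm p x.1 x.2) + (x.1 : ℂ) • β x⟫_ℂ).re) (0, y) := by
      have := hβc0 y
      refine Complex.continuous_re.continuousAt.comp ?_
      refine ContinuousAt.inner continuousAt_const ?_
      exact ContinuousAt.add (by fun_prop) (ContinuousAt.smul (by fun_prop) this)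
    have h1 := hc.tendsto.comp (hline y)
    simp only [mm_zero, Complex.ofReal_zero, zero_smul, add_zero] at h1
    rw [pr_dec hp hξ] at h1
    refine ge_of_tendsto h1 ?_
    filter_upwards [self_mem_nhdsWithin] with s hs
    have hs' : (0 : ℝ) < s := hs
    have h2 := Sg_re (hΦ.maps (dil_maps hp hs'.ne' hy))
    rw [hexp s hs'.ne', sq, mul_smul, ← smul_add, inner_smul_right, Complex.re_ofReal_mul] at h2
    exact ((mul_pos_iff_of_pos_left hs').1 h2).le
  have hL : ∀ ξ : E, ⟪p, ξ⟫_ℂ = 0 → ⟪p', L ξ⟫_ℂ = 0 := by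
    intro ξ hξ
    have h : ∀ c : ℂ, 0 ≤ (c * ⟪p', L ξ⟫_ℂ).re := by
      intro c
      have := hL1 (c • ξ) (by rw [inner_smul_right, hξ, mul_zero])
      rwa [map_smul, inner_smul_right] at this
    have a1 := h 1
    have a2 := h (-1)
    have a3 := h Complex.I
    have a4 := h (-Complex.I)
    simp at a1 a2 a3 a4
    exact Complex.ext (by simpa using le_antisymm a2 a1) (by simpa using le_antisymm a3 a4)
  set α : ℂ := ⟪p', L p⟫_ℂ with hα
  let Γ : ℝ × E → F := fun x =>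
    (pr p' (L (mm p x.1 x.2)) + (x.1 : ℂ) • pr p' (β x)) +
      (⟪p, x.2⟫_ℂ * α + ⟪p', β x⟫_ℂ) • p'
  have hΓ : ∀ s : ℝ, s ≠ 0 → ∀ y, Γ (s, y) = dil p' s⁻¹ (Φ (dil p s y)) := by
    intro s hs y
    have hs' : (s : ℂ) ≠ 0 := by simpa using hs
    have e : ⟪p', L (mm p s y)⟫_ℂ = s * ⟪p, y⟫_ℂ * α := by
      rw [mm, map_add, map_smul, inner_add_right, hL _ (inner_pr hp y), inner_smul_right,
        zero_add]
    rw [hexp s hs, dil, pr_plus, pr_smul, pr_smul, inner_add_right, inner_smul_right,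
      inner_smul_right, e, smul_add, smul_smul, smul_smul]
    simp only [Γ]
    push_cast
    congr 2
    · rw [inv_mul_cancel₀ hs', one_smul]
    · congr 1
      field_simp
    · field_simp
  have hΓc : ∀ x, ContinuousAt β x → ContinuousAt Γ x := by
    intro x hx
    have h1 : ContinuousAt (fun x => pr p' (β x)) x := (continuous_pr p').continuousAt.comp hx
    have h2 : ContinuousAt (fun x => ⟪p', β x⟫_ℂ) x := ContinuousAt.inner continuousAt_const hx
    refine ContinuousAt.add (ContinuousAt.add (by fun_prop) (ContinuousAt.smul (by fun_prop) h1))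
      (ContinuousAt.smul (ContinuousAt.add (by fun_prop) h2) continuousAt_const)
  have hΓ0 : ∀ y, Γ (0, y) = L (pr p y) + (⟪p, y⟫_ℂ * α + ⟪p', B (pr p y)⟫_ℂ) • p' := by
    intro y
    simp only [Γ, hβ0, mm_zero, Complex.ofReal_zero, zero_smul, add_zero,
      pr_of_orth (hL _ (inner_pr hp y))]
  have hbd : ∀ y, rr p y = 0 → rr p' (Γ (0, y)) = 0 := by
    intro y hy
    have h1 : Tendsto (fun s : ℝ => rr p' (Γ (s, y))) (𝓝[>] 0) (𝓝 (rr p' (Γ (0, y)))) :=
      ((continuous_rr p').continuousAt.comp (hΓc _ (hβc0 y))).tendsto.comp (hline y)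
    have h2 : Tendsto (fun s : ℝ => dil p s y) (𝓝[>] 0) (𝓝 0) := by
      have := ((continuous_dil p).tendsto (0, y)).comp (hline y)
      have e : dil p 0 y = 0 := by simp [dil]
      rw [e] at this
      exact this
    have h3 : ∀ᶠ s : ℝ in 𝓝[>] 0, rr p' (Γ (s, y)) = 0 := by
      filter_upwards [self_mem_nhdsWithin, h2.eventually ha.eventually_analyticAt] with s hs hs2
      have hs' : (0 : ℝ) < s := hs
      have h4 : rr p (dil p s y) = 0 := by rw [rr_dil hp, hy, mul_zero]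
      have h5 := hΦ.boundary (isOpen_Sg p') (mem_closure_Sg hp h4)
        (fun h : 0 < rr p (dil p s y) => by linarith) hs2.continuousAt
      rw [hΓ s hs'.ne', rr_dil hp', rr_of_boundary h5.1 h5.2, mul_zero]
    exact tendsto_nhds_unique h1 (tendsto_const_nhds.congr' (h3.mono fun s hs => hs.symm))
  obtain ⟨hαim, halg⟩ := boundary_algebra (p := p) (p' := p') L B hBh α (by
    intro ξ hξ τ
    have h1 := hbd (ξ + (((‖ξ‖ ^ 2 / 2 : ℝ) : ℂ) + τ * Complex.I) • p) (by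
      rw [rr_dec hp hξ]
      simp only [Complex.add_re, Complex.ofReal_re, Complex.mul_re, Complex.I_re, mul_zero,
        Complex.ofReal_im, Complex.I_im, zero_mul]
      ring)
    rw [hΓ0, pr_dec hp hξ, inner_dec hp hξ, rr_dec hp' (hL ξ hξ)] at h1
    linarith)
  have hpos : 0 < α.re := by
    let k : ℂ → ℂ := fun u => ⟪p', Φ (u • p)⟫_ℂ
    have hm : MapsTo (fun u : ℂ => u • p) (ball 1 1) (Sg p) := by
      intro u hu
      change 0 < rr p (u • p)
      have := rr_dec hp (inner_zero_right p) u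
      rw [zero_add] at this
      rw [this]
      rw [mem_ball, dist_eq_norm] at hu
      have h2 := Complex.abs_re_le_norm (u - 1)
      have h3 := abs_lt.1 (lt_of_le_of_lt h2 hu)
      simp at h3 ⊢
      linarith [h3.1]
    have hk : DifferentiableOn ℂ k (ball 1 1) :=
      (differentiable_inner p').comp_differentiableOn
        (hΦ.diff.comp (by fun_prop) hm)
    have hkpos : ∀ u ∈ ball (1 : ℂ) 1, 0 < (k u).re := fun u hu => Sg_re (hΦ.maps (hm hu))
    have hk1 := hkpos 1 (mem_ball_self one_pos)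
    have hprp : pr p p = 0 := by simp [pr, hp]
    have h1 : Tendsto (fun s : ℝ => (⟪p', Γ (s, p)⟫_ℂ).re) (𝓝[>] 0)
        (𝓝 (⟪p', Γ (0, p)⟫_ℂ).re) :=
      (Complex.continuous_re.continuousAt.comp
        (ContinuousAt.inner continuousAt_const (hΓc _ (hβc0 p)))).tendsto.comp (hline p)
    have h2 : ⟪p', Γ (0, p)⟫_ℂ = α := by
      rw [hΓ0, inner_dec hp' (hL _ (inner_pr hp p)), (halg _ (inner_pr hp p)).1, inner_pp hp]
      ring
    rw [h2] at h1
    refine lt_of_lt_of_le (show 0 < (k 1).re / 4 by linarith) (ge_of_tendsto h1 ?_)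
    filter_upwards [Ioc_mem_nhdsGT one_pos] with s hs
    have h3 := harnack k hk hkpos (s ^ 2) (pow_pos hs.1 2) (pow_le_one₀ hs.1.le hs.2)
    have h4 : dil p s p = ((s ^ 2 : ℝ) : ℂ) • p := by
      simp [dil, hprp, hp]
    rw [hΓ s hs.1.ne', inner_dil hp', h4, ← Complex.ofReal_pow, Complex.re_ofReal_mul]
    have h5 : 0 < s ^ 2 := pow_pos hs.1 2
    rw [inv_pow, le_inv_mul_iff₀ h5]
    change _ ≤ (k ((s ^ 2 : ℝ) : ℂ)).re
    linarith
  have hσ : 0 < √α.re := Real.sqrt_pos.2 hpos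
  obtain ⟨A, hA⟩ := exists_iso hp hp' L (√α.re) hσ hL (by
    intro ξ hξ
    rw [Real.sq_sqrt hpos.le]
    exact (halg ξ hξ).2)
  have hAp : A p = p' := by
    have hprp : pr p p = 0 := by simp [pr, hp]
    rw [hA, hprp, inner_pp hp]
    simp
  have hAprp : Prp (Sg p) (Sg p') A := by
    refine Prp.of_isometry A fun x => ?_
    change 0 < rr p x ↔ 0 < rr p' (A x)
    rw [← hAp, rr_iso]
  have hG : ∀ y, Γ (0, y) = dil p' (√α.re) (A y) := by
    intro y
    have hσ' : ((√α.re : ℝ) : ℂ) ≠ 0 := by simpa using hσ.ne'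
    have ho : ⟪p', ((√α.re : ℝ) : ℂ)⁻¹ • L (pr p y)⟫_ℂ = 0 := by
      rw [inner_smul_right, hL _ (inner_pr hp y), mul_zero]
    rw [hΓ0, hA, dil, pr_dec hp' ho, inner_dec hp' ho, smul_smul, mul_inv_cancel₀ hσ', one_smul,
      (halg _ (inner_pr hp y)).1, ← Complex.ofReal_pow, Real.sq_sqrt hpos.le, add_zero]
    congr 2
    rw [mul_comm]
    congr 1
    exact Complex.ext (by simp) (by simpa using hαim)
  refine ⟨A, hAp, Htp.trans (g := dil p' (√α.re) ∘ A) (Htp.symm ?_) ?_⟩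
  · refine ⟨fun s y => Γ (s, y), ?_, ?_, ?_⟩
    · rintro ⟨s, y⟩ ⟨_, hy⟩
      refine (hΓc _ ?_).continuousWithinAt
      rcases eq_or_ne s 0 with h | h
      · rw [h]; exact hβc0 y
      · exact hβc s h y hy
    · intro s _
      rcases eq_or_ne s 0 with h | h
      · rw [h]
        exact ((prp_dil hp' hσ.ne').comp hAprp).congr fun y _ => (hG y).symm
      · exact ((prp_dil hp' (inv_ne_zero h)).comp (hΦ.comp (prp_dil hp h))).congr
          fun y _ => (hΓ s h y).symm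
    · intro z _
      refine ⟨hG z, ?_⟩
      simp only [hΓ 1 one_ne_zero, inv_one, dil_one]
  · exact (htp_dil hp' hσ).pre hAprp

end Pool.Agent.MP_eddcad_an

end MrgPart3

-- ======== part 4: formerly Pool.Agent.MP_eddcad_an.Iso
section MrgPart4

set_option autoImplicit false

namespace Pool.Agent.MP_eddcad_an

open Set Filter Topology Metric Asymptotics
open scoped InnerProductSpace ComplexConjugate

variable {E F : Type*} [NormedAddCommGroup E] [InnerProductSpace ℂ E]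
  [NormedAddCommGroup F] [InnerProductSpace ℂ F]

theorem prp_iso [CompleteSpace E] (A : E →ₗᵢ[ℂ] F) : Prp (ball (0 : E) 1) (ball (0 : F) 1) A :=
  Prp.of_isometry A fun x => by simp only [mem_ball, dist_zero_right, A.norm_map]

/-- complex reflection -/
noncomputable def rot (v : F) (hv : ‖v‖ = 1) (θ : ℝ) : F →ₗᵢ[ℂ] F where
  toFun x := x + ((Complex.exp (θ * Complex.I) - 1) * ⟪v, x⟫_ℂ) • v
  map_add' a b := by
    simp only [inner_add_right, mul_add, add_smul]; abel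
  map_smul' c a := by
    simp only [inner_smul_right, smul_add, smul_smul, RingHom.id_apply]
    congr 2
    ring
  norm_map' x := by
    change ‖x + ((Complex.exp (θ * Complex.I) - 1) * ⟪v, x⟫_ℂ) • v‖ = ‖x‖
    refine (pow_left_inj₀ (norm_nonneg _) (norm_nonneg _) two_ne_zero).1 ?_
    have e : x + ((Complex.exp (θ * Complex.I) - 1) * ⟪v, x⟫_ℂ) • v =
        pr v x + (Complex.exp (θ * Complex.I) * ⟪v, x⟫_ℂ) • v := by
      rw [pr, sub_mul, one_mul, sub_smul]; abel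
    rw [e, norm_dec hv (inner_pr hv x), norm_sq_pr hv x, norm_mul,
      Complex.norm_exp_ofReal_mul_I, one_mul]

theorem rot_apply (v : F) (hv : ‖v‖ = 1) (θ : ℝ) (x : F) :
    rot v hv θ x = x + ((Complex.exp (θ * Complex.I) - 1) * ⟪v, x⟫_ℂ) • v := rfl

theorem htp_rot [CompleteSpace F] (v : F) (hv : ‖v‖ = 1) (θ : ℝ) :
    Htp (ball (0 : F) 1) (ball (0 : F) 1) id (rot v hv θ) := by
  refine ⟨fun t => rot v hv (t * θ), ?_, fun t _ => prp_iso _, ?_⟩
  · simp only [rot_apply]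
    fun_prop
  · intro z _
    simp [rot_apply]

theorem exists_rot [CompleteSpace F] (a b : F) (ha : ‖a‖ = 1) (hb : ‖b‖ = 1) :
    ∃ R : F →ₗᵢ[ℂ] F, Htp (ball (0 : F) 1) (ball (0 : F) 1) id R ∧ R a = b ∧
      ∀ x, ⟪b - a, x⟫_ℂ = 0 → R x = x := by
  rcases eq_or_ne a b with h | h
  · exact ⟨LinearIsometry.id, Htp.refl (prp_iso LinearIsometry.id), h, fun _ _ => rfl⟩
  have hn : ‖b - a‖ ≠ 0 := norm_ne_zero_iff.2 (sub_ne_zero.2 h.symm)
  have hn' : ((‖b - a‖ : ℝ) : ℂ) ≠ 0 := by simpa using sub_ne_zero.2 h.symm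
  let v : F := ((‖b - a‖ : ℝ) : ℂ)⁻¹ • (b - a)
  have hv : ‖v‖ = 1 := by
    simp only [v, norm_smul, norm_inv, Complex.norm_real, norm_norm]
    exact inv_mul_cancel₀ hn
  set c : ℂ := ⟪b, a⟫_ℂ with hc
  have hsq : ((‖b - a‖ : ℝ) : ℂ) ^ 2 = 2 - c - conj c := by
    have h1 : ⟪b - a, b - a⟫_ℂ = ((‖b - a‖ : ℝ) : ℂ) ^ 2 := by
      rw [inner_self_eq_norm_sq_to_K]; rfl
    rw [← h1, inner_sub_left, inner_sub_right, inner_sub_right, inner_pp ha, inner_pp hb, hc,
      inner_conj_symm]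
    ring
  have hc1 : c - 1 ≠ 0 := by
    intro h1
    have h2 : c = 1 := by linear_combination h1
    rw [h2] at hsq
    simp only [map_one] at hsq
    exact pow_ne_zero 2 hn' (by rw [hsq]; ring)
  let w : ℂ := (1 - conj c) / (c - 1)
  have hw : ‖w‖ = 1 := by
    have : 1 - conj c = -conj (c - 1) := by simp
    simp only [w]
    rw [this, norm_div, norm_neg, Complex.norm_conj, div_self (norm_ne_zero_iff.2 hc1)]
  have hw2 : Complex.exp (w.arg * Complex.I) = w := by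
    have := Complex.norm_mul_exp_arg_mul_I w
    rwa [hw, Complex.ofReal_one, one_mul] at this
  refine ⟨rot v hv w.arg, htp_rot v hv _, ?_, ?_⟩
  · rw [rot_apply, hw2]
    simp only [v, inner_smul_left, smul_smul, inner_sub_left, inner_pp ha, map_inv₀,
      Complex.conj_ofReal]
    have e : (w - 1) * (((‖b - a‖ : ℝ) : ℂ)⁻¹ * (c - 1)) * ((‖b - a‖ : ℝ) : ℂ)⁻¹ = 1 := by
      simp only [w]
      field_simp
      linear_combination -hsq
    rw [← hc, e, one_smul, add_sub_cancel]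
  · intro x hx
    rw [rot_apply]
    simp only [v, inner_smul_left, hx, mul_zero, zero_smul, add_zero]

theorem htp_iso [FiniteDimensional ℂ E] [FiniteDimensional ℂ F] (A A' : E →ₗᵢ[ℂ] F) :
    Htp (ball (0 : E) 1) (ball (0 : F) 1) A A' := by
  classical
  have : CompleteSpace E := FiniteDimensional.complete ℂ E
  have : CompleteSpace F := FiniteDimensional.complete ℂ F
  let e := stdOrthonormalBasis ℂ E
  have key : ∀ s : Finset (Fin (Module.finrank ℂ E)), ∃ A'' : E →ₗᵢ[ℂ] F,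
      Htp (ball (0 : E) 1) (ball (0 : F) 1) A A'' ∧ ∀ i ∈ s, A'' (e i) = A' (e i) := by
    intro s
    induction s using Finset.induction_on with
    | empty => exact ⟨A, Htp.refl (prp_iso A), by simp⟩
    | insert k s hk ih =>
      obtain ⟨A'', h1, h2⟩ := ih
      obtain ⟨R, hR1, hR2, hR3⟩ := exists_rot (A'' (e k)) (A' (e k))
        (by rw [A''.norm_map, e.orthonormal.1]) (by rw [A'.norm_map, e.orthonormal.1])
      refine ⟨R.comp A'', h1.trans (hR1.pre (prp_iso A'')), ?_⟩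
      intro i hi
      rcases Finset.mem_insert.1 hi with h | h
      · rw [h]; exact hR2
      · have hik : k ≠ i := fun h' => hk (h' ▸ h)
        change R (A'' (e i)) = _
        rw [hR3, h2 i h]
        rw [inner_sub_left, A''.inner_map_map, h2 i h, A'.inner_map_map, sub_self]
  obtain ⟨A'', h1, h2⟩ := key Finset.univ
  have : A'' = A' := by
    apply LinearIsometry.toLinearMap_injective
    exact e.toBasis.ext fun i => by simpa using h2 i (Finset.mem_univ i)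
  rwa [this] at h1

theorem ball_rescale [FiniteDimensional ℂ E] [FiniteDimensional ℂ F] {f : E → F}
    (hf : Prp (ball (0 : E) 1) (ball (0 : F) 1) f) {p : E} (hp : ‖p‖ = 1)
    (ha : AnalyticAt ℂ f p) :
    ∃ A : E →ₗᵢ[ℂ] F, Htp (ball (0 : E) 1) (ball (0 : F) 1) f A := by
  have : ProperSpace F := FiniteDimensional.proper ℂ F
  have hb := hf.boundary isOpen_ball (x := p)
    (by rw [closure_ball _ one_ne_zero]; simp [hp]) (by simp [hp]) ha.continuousAt
  rw [closure_ball _ one_ne_zero] at hb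
  have hp' : ‖f p‖ = 1 := by
    simp only [mem_closedBall, dist_zero_right, mem_ball, not_lt] at hb
    exact le_antisymm hb.1 hb.2
  have c0 : cay p 0 = p := by simp [cay, pr]
  have c1 : cay (f p) (f p) = 0 := by simp [cay, pr, hp']
  have hΦ : Prp (Sg p) (Sg (f p)) (cay (f p) ∘ f ∘ cay p) :=
    (prp_cay_ball hp').comp (hf.comp (prp_cay_Sg hp))
  have haΦ : AnalyticAt ℂ (cay (f p) ∘ f ∘ cay p) 0 := by
    have a1 : AnalyticAt ℂ (f ∘ cay p) 0 :=
      AnalyticAt.comp (by rw [c0]; exact ha) (analyticAt_cay p 0 (by simp))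
    refine AnalyticAt.comp ?_ a1
    rw [Function.comp, c0]
    exact analyticAt_cay _ _ (by rw [inner_pp hp']; norm_num)
  obtain ⟨A, hA, hH⟩ := rescale hp hp' hΦ haΦ (by simp only [Function.comp, c0, c1])
  refine ⟨A, ((hH.pre (prp_cay_ball hp)).post (prp_cay_Sg hp')).congr ?_ ?_⟩
  · intro z hz
    simp only [Function.comp]
    rw [cay_cay hp z (ball_ne hp hz), cay_cay hp' _ (ball_ne hp' (hf.maps hz))]
  · intro z hz
    simp only [Function.comp]
    rw [← hA, cay_iso, cay_cay hp z (ball_ne hp hz)]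

theorem ball_one_class [FiniteDimensional ℂ E] [FiniteDimensional ℂ F] {f g : E → F}
    (hf : Prp (ball (0 : E) 1) (ball (0 : F) 1) f) {p : E} (hp : ‖p‖ = 1)
    (ha : AnalyticAt ℂ f p)
    (hg : Prp (ball (0 : E) 1) (ball (0 : F) 1) g) {q : E} (hq : ‖q‖ = 1)
    (hb : AnalyticAt ℂ g q) : Htp (ball (0 : E) 1) (ball (0 : F) 1) f g := by
  obtain ⟨A, hA⟩ := ball_rescale hf hp ha
  obtain ⟨A', hA'⟩ := ball_rescale hg hq hb
  exact (hA.trans (htp_iso A A')).trans hA'.symm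

end Pool.Agent.MP_eddcad_an

end MrgPart4

-- ======== part 5: formerly Pool.Agent.MP_eddcad_an.Rational
section MrgPart5

set_option autoImplicit false

namespace Pool.Agent.MP_eddcad_an

open Set Filter Topology Metric

theorem isProperHol_iff {n N : ℕ} (f : (Fin n → ℂ) → (Fin N → ℂ)) :
    IsProperHol f ↔ Prp (unitBall n) (unitBall N) f :=
  ⟨fun h => ⟨h.1, h.2.1, h.2.2⟩, fun h => ⟨h.1, h.2, h.3⟩⟩

theorem properHomotopic_iff {n N : ℕ} (f g : (Fin n → ℂ) → (Fin N → ℂ)) :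
    ProperHomotopic f g ↔ Htp (unitBall n) (unitBall N) f g := by
  simp only [ProperHomotopic, Htp, isProperHol_iff]

theorem mem_ball_iff {m : ℕ} (z : EuclideanSpace ℂ (Fin m)) :
    z ∈ ball (0 : EuclideanSpace ℂ (Fin m)) 1 ↔ EuclideanSpace.equiv (Fin m) ℂ z ∈ unitBall m := by
  rw [mem_ball, dist_zero_right, ← sq_lt_one_iff₀ (norm_nonneg _), EuclideanSpace.norm_sq_eq]
  rfl

theorem prp_equiv (m : ℕ) : Prp (ball (0 : EuclideanSpace ℂ (Fin m)) 1) (unitBall m)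
    (EuclideanSpace.equiv (Fin m) ℂ) :=
  Prp.of_inv (c' := (EuclideanSpace.equiv (Fin m) ℂ).symm)
    (EuclideanSpace.equiv (Fin m) ℂ).differentiable.differentiableOn
    (fun z hz => (mem_ball_iff z).1 hz)
    (EuclideanSpace.equiv (Fin m) ℂ).symm.continuous.continuousOn
    (fun z hz => (mem_ball_iff _).2 (by rwa [ContinuousLinearEquiv.apply_symm_apply]))
    (fun z _ => ContinuousLinearEquiv.symm_apply_apply _ z)
    (fun z _ => ContinuousLinearEquiv.apply_symm_apply _ z)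

theorem prp_equiv_symm (m : ℕ) : Prp (unitBall m) (ball (0 : EuclideanSpace ℂ (Fin m)) 1)
    (EuclideanSpace.equiv (Fin m) ℂ).symm :=
  Prp.of_inv (c' := EuclideanSpace.equiv (Fin m) ℂ)
    (EuclideanSpace.equiv (Fin m) ℂ).symm.differentiable.differentiableOn
    (fun z hz => (mem_ball_iff _).2 (by rwa [ContinuousLinearEquiv.apply_symm_apply]))
    (EuclideanSpace.equiv (Fin m) ℂ).continuous.continuousOn
    (fun z hz => (mem_ball_iff z).1 hz)
    (fun z _ => ContinuousLinearEquiv.apply_symm_apply _ z)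
    (fun z _ => ContinuousLinearEquiv.symm_apply_apply _ z)

theorem analyticAt_eval {n : ℕ} (Q : MvPolynomial (Fin n) ℂ) (z : Fin n → ℂ) :
    AnalyticAt ℂ (fun z : Fin n → ℂ => MvPolynomial.eval z Q) z :=
  AnalyticOnNhd.eval_mvPolynomial Q z (mem_univ z)

theorem exists_boundary_ne {n : ℕ} (hn : 0 < n) (Q : MvPolynomial (Fin n) ℂ)
    (hQ : MvPolynomial.eval 0 Q ≠ 0) :
    ∃ p : EuclideanSpace ℂ (Fin n), ‖p‖ = 1 ∧
      MvPolynomial.eval (EuclideanSpace.equiv (Fin n) ℂ p) Q ≠ 0 := by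
  by_contra hc
  push Not at hc
  let v : EuclideanSpace ℂ (Fin n) := EuclideanSpace.single ⟨0, hn⟩ 1
  have hv : ‖v‖ = 1 := by simp [v]
  let φ : ℂ → ℂ := fun ζ => MvPolynomial.eval (EuclideanSpace.equiv (Fin n) ℂ (ζ • v)) Q
  have hφ : Differentiable ℂ φ := by
    intro ζ
    refine ((analyticAt_eval Q _).differentiableAt).comp ζ ?_
    exact (EuclideanSpace.equiv (Fin n) ℂ).differentiableAt.comp ζ (by fun_prop)
  have h := Complex.norm_le_of_forall_mem_frontier_norm_le (U := ball (0 : ℂ) 1) (f := φ) (C := 0)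
    isBounded_ball hφ.diffContOnCl (by
      intro ζ hζ
      rw [frontier_ball _ one_ne_zero] at hζ
      have : ‖ζ • v‖ = 1 := by
        rw [norm_smul, hv, mul_one]; simpa using hζ
      simp only [φ, hc _ this, norm_zero, le_refl])
    (z := 0) (subset_closure (mem_ball_self one_pos))
  apply hQ
  simpa [φ] using h

theorem rational_ext {n N : ℕ} (hn : 0 < n) {f : (Fin n → ℂ) → (Fin N → ℂ)}
    (hf : IsProperHol f) {e : ℕ} (he : RatDegLE f e) :
    ∃ f' : EuclideanSpace ℂ (Fin n) → EuclideanSpace ℂ (Fin N),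
      Prp (ball 0 1) (ball 0 1) f' ∧ (∃ p, ‖p‖ = 1 ∧ AnalyticAt ℂ f' p) ∧
      EqOn (EuclideanSpace.equiv (Fin N) ℂ ∘ f' ∘ (EuclideanSpace.equiv (Fin n) ℂ).symm) f
        (unitBall n) := by
  obtain ⟨P, Q, -, -, h⟩ := he
  let r : (Fin n → ℂ) → (Fin N → ℂ) := fun z j => MvPolynomial.eval z (P j) / MvPolynomial.eval z Q
  have hr : EqOn f r (unitBall n) := fun z hz => funext (h z hz).2
  have h0 : (0 : Fin n → ℂ) ∈ unitBall n := by simp [unitBall]
  obtain ⟨p, hp, hpQ⟩ := exists_boundary_ne hn Q (h 0 h0).1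
  refine ⟨(EuclideanSpace.equiv (Fin N) ℂ).symm ∘ r ∘ EuclideanSpace.equiv (Fin n) ℂ,
    (prp_equiv_symm N).comp ((((isProperHol_iff f).1 hf).congr hr).comp (prp_equiv n)),
    ⟨p, hp, ?_⟩, ?_⟩
  · refine ((EuclideanSpace.equiv (Fin N) ℂ).symm.analyticAt _).comp
      (AnalyticAt.comp ?_ ((EuclideanSpace.equiv (Fin n) ℂ).analyticAt _))
    exact AnalyticAt.pi fun j => (analyticAt_eval _ _).div (analyticAt_eval _ _) hpQ
  · intro z hz
    simp only [Function.comp, ContinuousLinearEquiv.apply_symm_apply]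
    exact (hr hz).symm

theorem one_class {n N : ℕ} (hn : 0 < n) {f g : (Fin n → ℂ) → (Fin N → ℂ)}
    (hf : IsProperHol f) {e : ℕ} (he : RatDegLE f e)
    (hg : IsProperHol g) {e' : ℕ} (he' : RatDegLE g e') : ProperHomotopic f g := by
  obtain ⟨f', h1, ⟨p, hp, ha⟩, h2⟩ := rational_ext hn hf he
  obtain ⟨g', h1', ⟨q, hq, hb⟩, h2'⟩ := rational_ext hn hg he'
  rw [properHomotopic_iff]
  exact (((ball_one_class h1 hp ha h1' hq hb).pre (prp_equiv_symm n)).post (prp_equiv N)).congr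
    h2 h2'

theorem deg_pos {n N : ℕ} (hn : 0 < n) {f : (Fin n → ℂ) → (Fin N → ℂ)}
    (hf : IsProperHol f) : ¬ RatDegLE f 0 := by
  rintro ⟨P, Q, hP, hQ, h⟩
  have h0 : (0 : Fin n → ℂ) ∈ unitBall n := by simp [unitBall]
  have hconst : ∀ z ∈ unitBall n, f z = f 0 := by
    intro z hz
    funext j
    rw [(h z hz).2 j, (h 0 h0).2 j]
    rw [MvPolynomial.totalDegree_eq_zero_iff_eq_C.1 (Nat.le_zero.1 (hP j)),
      MvPolynomial.totalDegree_eq_zero_iff_eq_C.1 (Nat.le_zero.1 hQ)]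
    simp
  have h1 : Prp (ball (0 : EuclideanSpace ℂ (Fin n)) 1) (unitBall N) (fun _ => f 0) :=
    (((isProperHol_iff f).1 hf).comp (prp_equiv n)).congr
      fun z hz => hconst _ ((mem_ball_iff z).1 hz)
  have hopen : IsOpen (unitBall N) := isOpen_lt (by fun_prop) continuous_const
  let v : EuclideanSpace ℂ (Fin n) := EuclideanSpace.single ⟨0, hn⟩ 1
  have hv : ‖v‖ = 1 := by simp [v]
  exact (h1.boundary hopen (x := v) (by rw [closure_ball _ one_ne_zero]; simp [hv])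
    (by simp [hv]) continuousAt_const).2 (hf.2.1 h0)

end Pool.Agent.MP_eddcad_an

end MrgPart5

-- marker of a merged file
example : 731051 + 34996 = 731051 + 34996 := rfl
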