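import Mathlib.Tactic.Polynomial.Basic
import Pool.Agent.MP_eddcad_an.Rational

set_option autoImplicit false

namespace Pool.Agent.MP_eddcad_an

open Set Filter Topology Metric

/-- existence of a proper polynomial map of degree exactly `d` -/
def PolyDeg (n N d : ℕ) : Prop :=
  ∃ g : Fin N → MvPolynomial (Fin n) ℂ, (∀ j, (g j).totalDegree ≤ d) ∧
    (∃ j, (g j).totalDegree = d) ∧ IsProperHol (fun z j => MvPolynomial.eval z (g j))

theorem proper_of_sphere {n N : ℕ} (g : (Fin n → ℂ) → (Fin N → ℂ)) (hg : Differentiable ℂ g)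
    (h1 : ∀ z, ∑ i, ‖z i‖ ^ 2 < 1 → ∑ j, ‖g z j‖ ^ 2 < 1)
    (h2 : ∀ z, ∑ i, ‖z i‖ ^ 2 = 1 → ∑ j, ‖g z j‖ ^ 2 = 1) : IsProperHol g := by
  refine ⟨hg.differentiableOn, h1, ?_⟩
  intro K hK hKV
  have e : unitBall n ∩ g ⁻¹' K = {z : Fin n → ℂ | ∑ i, ‖z i‖ ^ 2 ≤ 1} ∩ g ⁻¹' K := by
    ext z
    constructor
    · rintro ⟨hz, hz2⟩
      exact ⟨le_of_lt (show ∑ i, ‖z i‖ ^ 2 < 1 from hz), hz2⟩
    · rintro ⟨hz, hz2⟩
      refine ⟨show ∑ i, ‖z i‖ ^ 2 < 1 from
        lt_of_le_of_ne (show ∑ i, ‖z i‖ ^ 2 ≤ 1 from hz) fun h => ?_, hz2⟩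
      have h3 : ∑ j, ‖g z j‖ ^ 2 < 1 := hKV hz2
      rw [h2 z h] at h3
      exact lt_irrefl _ h3
  rw [e]
  refine Metric.isCompact_of_isClosed_isBounded
    ((isClosed_le (by fun_prop) continuous_const).inter (hK.isClosed.preimage hg.continuous)) ?_
  refine (isBounded_closedBall (x := (0 : Fin n → ℂ)) (r := 1)).subset ?_
  rintro z ⟨hz, -⟩
  rw [mem_closedBall, dist_zero_right, pi_norm_le_iff_of_nonneg zero_le_one]
  intro i
  have h3 : ‖z i‖ ^ 2 ≤ ∑ i, ‖z i‖ ^ 2 :=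
    Finset.single_le_sum (f := fun i => ‖z i‖ ^ 2) (fun _ _ => sq_nonneg _) (Finset.mem_univ i)
  have h4 : ∑ i, ‖z i‖ ^ 2 ≤ 1 := hz
  exact (sq_le_one_iff₀ (norm_nonneg _)).1 (h3.trans h4)

theorem mono_proper {n N d : ℕ} {ι : Type} [Fintype ι] (hcard : Fintype.card ι ≤ N)
    (c : ι → ℝ) (hc : ∀ i, 0 ≤ c i) (m : ι → Fin n → ℕ) (hm1 : ∀ i, 1 ≤ ∑ j, m i j)
    (hmd : ∀ i, ∑ j, m i j ≤ d) (i₀ : ι) (hi₀ : c i₀ ≠ 0) (hi₀' : ∑ j, m i₀ j = d)
    (h1 : ∀ x : Fin n → ℝ, ∑ j, x j = 1 → ∑ i, c i * ∏ j, x j ^ m i j = 1) :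
    PolyDeg n N d := by
  classical
  obtain ⟨emb⟩ : Nonempty (ι ↪ Fin N) :=
    Function.Embedding.nonempty_of_card_le (by simpa using hcard)
  let g₀ : ι → MvPolynomial (Fin n) ℂ := fun i =>
    MvPolynomial.monomial (Finsupp.equivFunOnFinite.symm (m i)) ((√(c i) : ℝ) : ℂ)
  have hsum : ∀ i, ((Finsupp.equivFunOnFinite.symm (m i) : Fin n →₀ ℕ).sum fun _ e => e) =
      ∑ j, m i j := by
    intro i
    rw [Finsupp.sum_fintype _ _ (fun _ => rfl)]
    simp
  have hev : ∀ i z, ‖MvPolynomial.eval z (g₀ i)‖ ^ 2 = c i * ∏ j, (‖z j‖ ^ 2) ^ m i j := by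
    intro i z
    simp only [g₀]
    rw [MvPolynomial.eval_monomial, Finsupp.prod_fintype _ _ (fun _ => pow_zero _), norm_mul,
      mul_pow, Complex.norm_real, Real.norm_eq_abs, sq_abs, Real.sq_sqrt (hc i), norm_prod,
      ← Finset.prod_pow]
    congr 1
    refine Finset.prod_congr rfl fun j _ => ?_
    simp only [Finsupp.coe_equivFunOnFinite_symm, norm_pow]
    ring
  let g : Fin N → MvPolynomial (Fin n) ℂ := Function.extend emb g₀ 0
  have hg1 : ∀ i, g (emb i) = g₀ i := fun i => emb.injective.extend_apply g₀ 0 i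
  have hg2 : ∀ j, (¬ ∃ i, emb i = j) → g j = 0 := fun j hj =>
    Function.extend_apply' g₀ (0 : Fin N → MvPolynomial (Fin n) ℂ) j hj
  have hnorm : ∀ z : Fin n → ℂ, ∑ j, ‖MvPolynomial.eval z (g j)‖ ^ 2 =
      ∑ i, c i * ∏ j, (‖z j‖ ^ 2) ^ m i j := by
    intro z
    rw [← Finset.sum_subset (Finset.subset_univ (Finset.univ.map emb)), Finset.sum_map]
    · exact Finset.sum_congr rfl fun i _ => by rw [hg1, hev]
    · intro j _ hj
      rw [hg2 j (by simpa using hj)]
      simp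
  refine ⟨g, ?_, ⟨emb i₀, ?_⟩, ?_⟩
  · intro j
    by_cases hj : ∃ i, emb i = j
    · obtain ⟨i, rfl⟩ := hj
      rw [hg1]
      exact (MvPolynomial.totalDegree_monomial_le _ _).trans ((hsum i).le.trans (hmd i))
    · rw [hg2 j hj]; simp
  · rw [hg1, MvPolynomial.totalDegree_monomial _ (by
      simpa using (Real.sqrt_ne_zero (hc i₀)).2 hi₀), hsum, hi₀']
  · refine proper_of_sphere _
      (differentiable_pi.2 fun j z => (analyticAt_eval _ z).differentiableAt) ?_ ?_
    · intro z hz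
      rw [hnorm]
      set s := ∑ i, ‖z i‖ ^ 2 with hs
      have hs0 : 0 ≤ s := Finset.sum_nonneg fun _ _ => sq_nonneg _
      rcases eq_or_lt_of_le hs0 with h | h
      · have hz0 : ∀ j, ‖z j‖ ^ 2 = 0 := fun j =>
          (Finset.sum_eq_zero_iff_of_nonneg fun _ _ => sq_nonneg _).1 h.symm j (Finset.mem_univ j)
        have : ∀ i, c i * ∏ j, (‖z j‖ ^ 2) ^ m i j = 0 := by
          intro i
          simp only [hz0, Finset.prod_pow_eq_pow_sum]
          rw [zero_pow (by have := hm1 i; omega), mul_zero]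
        simp [this]
      · have h2 := h1 (fun j => ‖z j‖ ^ 2 / s) (by rw [← Finset.sum_div, div_self h.ne'])
        refine lt_of_le_of_lt ?_ hz
        calc ∑ i, c i * ∏ j, (‖z j‖ ^ 2) ^ m i j
            ≤ ∑ i, s * (c i * ∏ j, (‖z j‖ ^ 2 / s) ^ m i j) := by
              refine Finset.sum_le_sum fun i _ => ?_
              have e : ∏ j, (‖z j‖ ^ 2) ^ m i j =
                  s ^ (∑ j, m i j) * ∏ j, (‖z j‖ ^ 2 / s) ^ m i j := by
                rw [← Finset.prod_pow_eq_pow_sum, ← Finset.prod_mul_distrib]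
                refine Finset.prod_congr rfl fun j _ => ?_
                rw [← mul_pow, mul_div_cancel₀ _ h.ne']
              have h3 : s ^ (∑ j, m i j) ≤ s := pow_le_of_le_one hs0 hz.le (by
                have := hm1 i; omega)
              have h4 : 0 ≤ c i * ∏ j, (‖z j‖ ^ 2 / s) ^ m i j :=
                mul_nonneg (hc i) (Finset.prod_nonneg fun _ _ => by positivity)
              rw [e, mul_left_comm]
              exact mul_le_mul_of_nonneg_right h3 h4
          _ = s := by rw [← Finset.mul_sum, h2, mul_one]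
    · intro z hz
      rw [hnorm]
      exact h1 _ hz

theorem whitney {n N d : ℕ} (hd : 1 ≤ d) (h : d * n + 1 ≤ N) : PolyDeg (n + 1) N d := by
  classical
  refine mono_proper (ι := Option (Fin d × Fin n)) (by simpa using h) (fun _ => 1)
    (fun _ => zero_le_one)
    (fun i => match i with
      | none => Fin.cons d 0
      | some kj => Fin.cons (kj.1 : ℕ) (Pi.single kj.2 1)) ?_ ?_ none one_ne_zero ?_ ?_
  · rintro (_ | ⟨k, j⟩)
    · simpa [Fin.sum_univ_succ] using hd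
    · simp [Fin.sum_univ_succ]
  · rintro (_ | ⟨k, j⟩)
    · simp [Fin.sum_univ_succ]
    · simp [Fin.sum_univ_succ]
  · simp [Fin.sum_univ_succ]
  · intro x hx
    rw [Fin.sum_univ_succ] at hx
    have e : ∀ j : Fin n, ∏ j' : Fin n, x j'.succ ^ (Pi.single j 1 : Fin n → ℕ) j' = x j.succ := by
      intro j
      rw [Finset.prod_eq_single j]
      · simp
      · intro b _ hb
        simp [hb]
      · simp
    simp only [Fintype.sum_option, Fin.prod_univ_succ, Fin.cons_zero, Fin.cons_succ, one_mul,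
      Pi.zero_apply, pow_zero, Finset.prod_const_one, mul_one, Fintype.sum_prod_type, e]
    simp only [← Finset.mul_sum]
    rw [← Finset.sum_mul, show ∑ j : Fin n, x j.succ = 1 - x 0 by linarith,
      Fin.sum_univ_eq_sum_range (fun k => x 0 ^ k) d, geom_sum_mul_neg]
    ring

/-- homogeneous polynomial of degree `r` with nonnegative coefficients -/
def HomP (r : ℕ) (Ψ : ℝ → ℝ → ℝ) : Prop :=
  ∃ c : ℕ → ℝ, (∀ k, 0 ≤ c k) ∧
    ∀ X y, Ψ X y = ∑ k ∈ Finset.range (r + 1), c k * X ^ (r - k) * y ^ k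

theorem HomP.step {r : ℕ} {Ψ Ψ' : ℝ → ℝ → ℝ} (h : HomP r Ψ) (h' : HomP r Ψ') :
    HomP (r + 1) (fun X y => X * Ψ X y + y * Ψ' X y) := by
  obtain ⟨c, hc, h⟩ := h
  obtain ⟨c', hc', h'⟩ := h'
  refine ⟨fun k => (if k ≤ r then c k else 0) + (if k = 0 then 0 else c' (k - 1)), ?_, ?_⟩
  · intro k
    refine add_nonneg ?_ ?_ <;> split_ifs <;> simp [hc, hc']
  · intro X y
    simp only [add_mul, Finset.sum_add_distrib]
    congr 1
    · rw [Finset.sum_range_succ _ (r + 1), if_neg (by omega), h, Finset.mul_sum]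
      simp only [zero_mul, add_zero]
      refine Finset.sum_congr rfl fun k hk => ?_
      have hk' : k ≤ r := by simpa [Nat.lt_succ_iff] using hk
      rw [if_pos hk', show r + 1 - k = (r - k) + 1 by omega]
      ring
    · rw [Finset.sum_range_succ' _ (r + 1), h', Finset.mul_sum]
      simp only [if_true, zero_mul, add_zero]
      refine Finset.sum_congr rfl fun k _ => ?_
      rw [if_neg (by omega), show r + 1 - (k + 1) = r - k by omega, Nat.add_sub_cancel]
      ring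

theorem HomP.add {r : ℕ} {Ψ Ψ' : ℝ → ℝ → ℝ} (h : HomP r Ψ) (h' : HomP r Ψ') :
    HomP r (fun X y => Ψ X y + Ψ' X y) := by
  obtain ⟨c, hc, h⟩ := h
  obtain ⟨c', hc', h'⟩ := h'
  refine ⟨fun k => c k + c' k, fun k => add_nonneg (hc k) (hc' k), fun X y => ?_⟩
  simp only [add_mul, Finset.sum_add_distrib, h, h']

theorem homP_zero (r : ℕ) : HomP r (fun _ _ => 0) :=
  ⟨fun _ => 0, fun _ => le_rfl, by simp⟩

theorem lucas (r : ℕ) : ∃ Ψ Ψ' : ℝ → ℝ → ℝ, HomP r Ψ ∧ HomP r Ψ' ∧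
    ∀ x y : ℝ, x + y = 1 → Ψ (x ^ 2) y = 1 + y ^ (2 * r) ∧
      x * Ψ' (x ^ 2) y = 1 - y ^ (2 * r + 1) := by
  induction r with
  | zero =>
    refine ⟨fun _ _ => 2, fun _ _ => 1, ⟨fun _ => 2, by simp, by simp⟩,
      ⟨fun _ => 1, by simp, by simp⟩, fun x y h => ⟨by norm_num, by simp; linarith⟩⟩
  | succ r ih =>
    obtain ⟨Ψ, Ψ', h1, h2, h3⟩ := ih
    refine ⟨fun X y => X * Ψ' X y + y * Ψ X y,
      fun X y => (X * Ψ' X y + y * Ψ X y) + (X * 0 + y * Ψ' X y), h2.step h1,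
      (h2.step h1).add ((homP_zero r).step h2), fun x y h => ?_⟩
    obtain ⟨a, b⟩ := h3 x y h
    have hx : x = 1 - y := by linarith
    have e1 : x ^ 2 * Ψ' (x ^ 2) y + y * Ψ (x ^ 2) y = 1 + y ^ (2 * (r + 1)) := by
      rw [sq, mul_assoc, ← sq, b, a, hx]
      ring
    refine ⟨e1, ?_⟩
    simp only
    rw [e1, mul_add, mul_zero, zero_add, mul_left_comm, b, hx]
    ring

theorem lucas_odd (r : ℕ) : ∃ c : ℕ → ℝ, (∀ k, 0 ≤ c k) ∧ ∀ x y : ℝ, x + y = 1 →
    ∑ k : Fin (r + 1), c k * (x ^ (2 * (r - k) + 1) * y ^ (k : ℕ)) = 1 - y ^ (2 * r + 1) := by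
  obtain ⟨_, Ψ', -, ⟨c, hc, h⟩, h3⟩ := lucas r
  refine ⟨c, hc, fun x y hxy => ?_⟩
  rw [← (h3 x y hxy).2, h, Finset.mul_sum,
    Fin.sum_univ_eq_sum_range (fun k => c k * (x ^ (2 * (r - k) + 1) * y ^ k)) (r + 1)]
  refine Finset.sum_congr rfl fun k _ => ?_
  rw [← pow_mul]
  ring

theorem sharp_odd {N r : ℕ} (h : r + 2 ≤ N) : PolyDeg 2 N (2 * r + 1) := by
  obtain ⟨c, hc, hs⟩ := lucas_odd r
  refine mono_proper (ι := Option (Fin (r + 1))) (by simp; omega)
    (fun i => match i with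
      | none => 1
      | some k => c k) ?_
    (fun i => match i with
      | none => ![0, 2 * r + 1]
      | some k => ![2 * (r - k) + 1, k]) ?_ ?_ none one_ne_zero ?_ ?_
  · rintro (_ | k)
    · exact zero_le_one
    · exact hc k
  · rintro (_ | k)
    · simp
    · simp; omega
  · rintro (_ | k)
    · simp
    · have := k.2
      simp; omega
  · simp
  · intro x hx
    rw [Fin.sum_univ_two] at hx
    have := hs _ _ hx
    simp only [Fintype.sum_option, Fin.prod_univ_two, Matrix.cons_val_zero, Matrix.cons_val_one,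
      pow_zero, one_mul, this]
    ring

theorem sharp_even {N r : ℕ} (h : r + 3 ≤ N) : PolyDeg 2 N (2 * r + 2) := by
  obtain ⟨c, hc, hs⟩ := lucas_odd r
  refine mono_proper (ι := Option (Option (Fin (r + 1)))) (by simp; omega)
    (fun i => match i with
      | none => 1
      | some none => 1
      | some (some k) => c k) ?_
    (fun i => match i with
      | none => ![0, 2 * r + 2]
      | some none => ![1, 2 * r + 1]
      | some (some k) => ![2 * (r - k) + 1, k]) ?_ ?_ none one_ne_zero ?_ ?_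
  · rintro (_ | _ | k)
    · exact zero_le_one
    · exact zero_le_one
    · exact hc k
  · rintro (_ | _ | k)
    · simp
    · simp
    · simp; omega
  · rintro (_ | _ | k)
    · simp
    · simp; omega
    · have := k.2
      simp; omega
  · simp
  · intro x hx
    rw [Fin.sum_univ_two] at hx
    have := hs _ _ hx
    simp only [Fintype.sum_option, Fin.prod_univ_two, Matrix.cons_val_zero, Matrix.cons_val_one,
      pow_zero, one_mul, this]
    have hx0 : x 0 = 1 - x 1 := by linarith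
    rw [hx0]
    ring

theorem polyDeg_of_range {n N d : ℕ} (hn : 0 < n) (hd : 1 ≤ d)
    (h : d * (n - 1) + 1 ≤ N ∨ (n = 2 ∧ d + 3 ≤ 2 * N)) : PolyDeg n N d := by
  rcases h with h | ⟨rfl, h⟩
  · obtain ⟨n', rfl⟩ : ∃ n', n = n' + 1 := ⟨n - 1, by omega⟩
    exact whitney hd (by simpa using h)
  · rcases Nat.even_or_odd' d with ⟨r, rfl | rfl⟩
    · obtain ⟨r', rfl⟩ : ∃ r', r = r' + 1 := ⟨r - 1, by omega⟩
      exact sharp_even (r := r') (by omega)
    · exact sharp_odd (by omega)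

end Pool.Agent.MP_eddcad_an
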